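import Mathlib
import Pool.Agent.Lib.MP_eb6598_an.Final

/-!
# MP_eb6598_an: a wave-limit which is zero, with a nonzero overlapping space

Power series are sequences of coefficients. The spaces of the question are described by the squares
of their norms, with values in `[0, ∞]`; the value `∞` means that the series is not in the space.
-/

set_option autoImplicit false

open scoped ENNReal Topology
open Filter ContinuousLinearMap

namespace Pool.Agent.Results.MP_eb6598_an.WaveLimitZero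

section Defs

/-- The Hilbert space `C(z)` of square summable power series with coefficients in `E`. -/
abbrev Cz (E : Type) [NormedAddCommGroup E] : Type := lp (fun _ : ℕ => E) 2

section Norm

variable {E : Type} [NormedAddCommGroup E]

/-- The square of the norm of `C(z)`, with the value `∞` for series which are not square
summable. -/
noncomputable def normC (f : ℕ → E) : ℝ≥0∞ := ∑' n, ENNReal.ofReal (‖f n‖ ^ 2)

/-- The square of the norm of `H(B)`: the range of `R = (1 - M M*)^(1/2)` with the range norm,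
where `M` is the multiplication by `B`. -/
noncomputable def normH (R : Cz E → Cz E) (h : ℕ → E) : ℝ≥0∞ :=
  ⨅ (x : Cz E) (_ : (R x : ℕ → E) = h), normC (x : ℕ → E)

end Norm

section Op

variable {H : Type} [NormedAddCommGroup H] [InnerProductSpace ℂ H]

/-- `T = M*`. -/
def IsAdjoint (M T : H → H) : Prop := ∀ f g : H, inner ℂ (M f) g = inner ℂ f (T g)

/-- `R` is the positive square root of `1 - M T`, `T = M*` (a symmetric map is linear, and bounded
by the closed graph theorem). -/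
def IsSqrtDefect (M T R : H → H) : Prop :=
  IsAdjoint R R ∧ (∀ f : H, 0 ≤ (inner ℂ (R f) f).re) ∧ ∀ f : H, R (R f) = f - M (T f)

end Op

variable {E : Type} [NormedAddCommGroup E] [InnerProductSpace ℂ E]

/-- The product of a power series with operator coefficients and a power series with coefficients
in `E`. -/
def act (b : ℕ → E →L[ℂ] E) (f : ℕ → E) : ℕ → E :=
  fun n => ∑ k ∈ Finset.range (n + 1), (b k) (f (n - k))

/-- `φ(z)` converges in the unit disc (strongly; by the principle of uniform boundedness this is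
the same as in norm) and its values have positive real part. -/
def PositiveRealPart (φ : ℕ → E →L[ℂ] E) : Prop :=
  ∀ z : ℂ, ‖z‖ < 1 → ∀ x : E, ∃ y : E,
    HasSum (fun n : ℕ => z ^ n • (φ n) x) y ∧ 0 ≤ (inner ℂ y x).re

/-- `B = (1 - φ) / (1 + φ)`, that is `(1 + φ) B = 1 - φ`. -/
def IsCayley (φ b : ℕ → E →L[ℂ] E) : Prop :=
  ∀ (n : ℕ) (x : E), (b n) x + ∑ k ∈ Finset.range (n + 1), (φ k) ((b (n - k)) x) =
    (if n = 0 then x else 0) - (φ n) x

/-- `A` is the self-adjoint part of `P`. -/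
def IsSelfAdjointPart (P A : E →L[ℂ] E) : Prop :=
  ∀ x y : E, inner ℂ (A x) y = (inner ℂ (P x) y + inner ℂ x (P y)) / 2

/-- The singular number `s_{n+1}(K)`, the distance of `K` to the operators of rank at most `n`, is
at most `c`. -/
def SingularLe (K : E →L[ℂ] E) (n : ℕ) (c : ℝ) : Prop :=
  ∃ (F : E →L[ℂ] E) (v : Fin n → E), (∀ x : E, F x ∈ Submodule.span ℂ (Set.range v)) ∧
    ∀ x : E, ‖K x - F x‖ ≤ c * ‖x‖

/-- Compact operators with `∑ s_j / j < ∞`. -/
def IsMatsaev (K : E →L[ℂ] E) : Prop :=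
  IsCompactOperator (K : E → E) ∧
    ∃ s : ℕ → ℝ, (∀ n, SingularLe K n (s n)) ∧ Summable fun n : ℕ => s n / ((n : ℝ) + 1)

/-- `A` is diagonal in an orthonormal basis, with diagonal entries in `[0, 100 / √(n + 1)]`. -/
def IsSmallDiagonal (A : E →L[ℂ] E) : Prop :=
  ∃ (e : HilbertBasis ℕ ℂ E) (t : ℕ → ℝ), ∀ n : ℕ,
    A (e n) = (t n : ℂ) • e n ∧ 0 ≤ t n ∧ t n ≤ 100 / √((n : ℝ) + 1)

/-- `M` is the multiplication by `B` in `C(z)`. -/
def IsMultiplication (b : ℕ → E →L[ℂ] E) (M : Cz E → Cz E) : Prop :=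
  ∀ f : Cz E, (M f : ℕ → E) = act b f

/-- The square of the norm of `L(φ)`: `f ↦ (1 + B) f` is an isometry of `L(φ)` onto `H(B)`. -/
noncomputable def normLphi (b : ℕ → E →L[ℂ] E) (R : Cz E → Cz E) (f : ℕ → E) : ℝ≥0∞ :=
  normH R (fun n => f n + act b f n)

/-- The square of the norm of the overlapping space: `‖f‖² + ‖B f‖²`. -/
noncomputable def normOverlap (b : ℕ → E →L[ℂ] E) (R : Cz E → Cz E) (f : ℕ → E) : ℝ≥0∞ :=
  normC f + normH R (act b f)

/-- `W` (its values on `L(φ)`) is the wave-limit: a linear contraction of `L(φ)` into the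
overlapping space with `W f = (1 + T) f`, `T = M*`, for square summable `f` (so this holds on
their closure by continuity), which is zero on the orthogonal complement of the square summable
elements. Orthogonality is expressed by the theorem of Pythagoras. -/
structure IsWaveLimit (b : ℕ → E →L[ℂ] E) (T R : Cz E → Cz E) (W : (ℕ → E) → ℕ → E) : Prop where
  add : ∀ f g : ℕ → E, normLphi b R f < ⊤ → normLphi b R g < ⊤ → W (f + g) = W f + W g
  smul : ∀ (c : ℂ) (f : ℕ → E), normLphi b R f < ⊤ → W (c • f) = c • W f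
  contraction : ∀ f : ℕ → E, normLphi b R f < ⊤ → normOverlap b R (W f) ≤ normLphi b R f
  square_summable : ∀ f : Cz E, normLphi b R f < ⊤ → ∀ n : ℕ, W f n = f n + T f n
  orthogonal : ∀ f : ℕ → E, normLphi b R f < ⊤ →
    (∀ s : Cz E, normLphi b R s < ⊤ →
      normLphi b R (f + s) = normLphi b R f + normLphi b R s) → W f = 0

/-- The map `W` of `L(φ)` into the overlapping space is onto. -/
def IsOnto (b : ℕ → E →L[ℂ] E) (R : Cz E → Cz E) (W : (ℕ → E) → ℕ → E) : Prop :=
  ∀ g : ℕ → E, normOverlap b R g < ⊤ → ∃ f : ℕ → E, normLphi b R f < ⊤ ∧ W f = g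

end Defs

open Pool.Agent.MPeb6598

section Aux

private theorem normC_lp {E : Type} [NormedAddCommGroup E] (x : Cz E) :
    normC (x : ℕ → E) = ENNReal.ofReal (‖x‖ ^ 2) := by
  unfold normC
  rw [← ENNReal.ofReal_tsum_of_nonneg (fun n => by positivity) (hasSum_normsq x).summable,
    (hasSum_normsq x).tsum_eq]

private theorem normH_lt_top {E : Type} [NormedAddCommGroup E] {R : Cz E → Cz E} {h : ℕ → E}
    (H : normH R h < ⊤) : ∃ x : Cz E, (R x : ℕ → E) = h := by
  by_contra hne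
  push Not at hne
  have : normH R h = ⊤ := by
    apply iInf₂_eq_top.2
    intro x hx
    exact absurd hx (hne x)
  rw [this] at H
  exact lt_irrefl _ H

variable {E K : Type} [NormedAddCommGroup E] [InnerProductSpace ℂ E] [CompleteSpace E]
  [NormedAddCommGroup K] [InnerProductSpace ℂ K] [CompleteSpace K]

omit [InnerProductSpace ℂ E] [CompleteSpace E] in
private theorem normC_zero : normC (0 : ℕ → E) = 0 := by
  simp [normC]

omit [CompleteSpace E] in
private theorem act_zero (b : ℕ → E →L[ℂ] E) : act b (0 : ℕ → E) = 0 := by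
  funext n
  simp [act]

omit [CompleteSpace E] in
private theorem normH_zero (R : Cz E →L[ℂ] Cz E) : normH R (0 : ℕ → E) = 0 := by
  refine le_antisymm ((iInf₂_le (0 : Cz E) ?_).trans ?_) zero_le
  · rw [map_zero]
    rfl
  · exact (normC_zero (E := E)).le

omit [CompleteSpace E] in
private theorem normLphi_zero (b : ℕ → E →L[ℂ] E) (R : Cz E →L[ℂ] Cz E) :
    normLphi b R (0 : ℕ → E) = 0 := by
  unfold normLphi
  rw [act_zero, show (fun n => (0 : ℕ → E) n + (0 : ℕ → E) n) = 0 by funext n; simp]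
  exact normH_zero R

omit [CompleteSpace E] in
private theorem normOverlap_zero (b : ℕ → E →L[ℂ] E) (R : Cz E →L[ℂ] Cz E) :
    normOverlap b R (0 : ℕ → E) = 0 := by
  unfold normOverlap
  rw [act_zero, normC_zero, normH_zero, add_zero]

variable (U : K →L[ℂ] K) (J : E →L[ℂ] K) (D : E →L[ℂ] E)

private theorem io_adj_le (hU : ∀ x, ‖U x‖ = ‖x‖) (hD : ∀ e, D e + adjoint J (J (D e)) = e)
    (f : Cz E) : ‖adjoint (io U J D hU hD) f‖ ≤ ‖f‖ := by
  have hMc : ∀ f, ‖io U J D hU hD f‖ ≤ ‖f‖ := by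
    intro f
    have h := Psi_normsq U J D hU hD 0 f
    rw [Psi_eq, map_zero, zero_add, norm_zero] at h
    apply le_of_sq_le_sq _ (norm_nonneg _)
    linarith
  have h1 : ‖io U J D hU hD‖ ≤ 1 :=
    opNorm_le_bound _ zero_le_one (fun x => by rw [one_mul]; exact hMc x)
  have h2 : ‖adjoint (io U J D hU hD)‖ ≤ 1 := by
    rw [LinearIsometryEquiv.norm_map]
    exact h1
  calc ‖adjoint (io U J D hU hD) f‖ ≤ ‖adjoint (io U J D hU hD)‖ * ‖f‖ := le_opNorm _ _
    _ ≤ 1 * ‖f‖ := by gcongr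
    _ = ‖f‖ := one_mul _

private theorem io_act (hU : ∀ x, ‖U x‖ = ‖x‖) (hD : ∀ e, D e + adjoint J (J (D e)) = e)
    (f : Cz E) : (io U J D hU hD f : ℕ → E) = act (bc U J D) f := by
  funext n
  rw [io_apply, outp_formula]
  rfl

/-- No nonzero element of `L(φ)` is square summable. -/
private theorem lphi_zero (hU : ∀ x, ‖U x‖ = ‖x‖) (hUs : ∀ x, U (adjoint U x) = x)
    (hD : ∀ e, D e + adjoint J (J (D e)) = e)
    (hrec : ∀ F : K, ∃ L : ℕ → ℕ, Tendsto L atTop atTop ∧
      Tendsto (fun j => (U ^ (L j)) F) atTop (𝓝 F)) (R : Cz E →L[ℂ] Cz E)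
    (hR1 : ∀ f g : Cz E, (inner ℂ (R f) g : ℂ) = (inner ℂ f (R g) : ℂ))
    (hR3 : ∀ f : Cz E, R (R f) = f - io U J D hU hD (adjoint (io U J D hU hD) f)) (f : Cz E)
    (hf : normLphi (bc U J D) R f < ⊤) : f = 0 := by
  set M := io U J D hU hD with hM
  set O := obs U J D hU hD with hO
  obtain ⟨x, hx⟩ := normH_lt_top hf
  have hbound : ∀ y : Cz E, ‖(inner ℂ (R x) y : ℂ)‖ ≤ ‖x‖ * ‖adjoint O y‖ := by
    intro y
    rw [hR1]
    have h1 : ‖R y‖ ≤ ‖adjoint O y‖ := by
      apply le_of_sq_le_sq _ (norm_nonneg _)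
      have h2 : ‖R y‖ ^ 2 = ‖y‖ ^ 2 - ‖adjoint M y‖ ^ 2 := by
        have h3 : (inner ℂ (R y) (R y) : ℂ) =
            inner ℂ y y - inner ℂ (adjoint M y) (adjoint M y) := by
          rw [hR1, hR3, inner_sub_right, adjoint_inner_left]
        have h4 := congrArg Complex.re h3
        have h7 : (inner ℂ y y : ℂ).re = ‖y‖ ^ 2 := by
          rw [inner_self_eq_norm_sq_to_K]; norm_cast
        have h8 : (inner ℂ (adjoint M y) (adjoint M y) : ℂ).re = ‖adjoint M y‖ ^ 2 := by
          rw [inner_self_eq_norm_sq_to_K]; norm_cast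
        have h9 : (inner ℂ (R y) (R y) : ℂ).re = ‖R y‖ ^ 2 := by
          rw [inner_self_eq_norm_sq_to_K]; norm_cast
        rw [Complex.sub_re, h7, h8, h9] at h4
        exact h4
      have h5 := coiso U J D hU hUs hD y
      rw [← hO, ← hM] at h5
      linarith
    calc ‖(inner ℂ x (R y) : ℂ)‖ ≤ ‖x‖ * ‖R y‖ := norm_inner_le_norm _ _
      _ ≤ ‖x‖ * ‖adjoint O y‖ := by gcongr
  obtain ⟨F, hF⟩ := mem_range_of_bound O (R x) ‖x‖ hbound
  apply zero_of_recurrent U J hrec F
  intro n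
  have hrecov := recover U J D hD F (f : ℕ → E) (by
    intro m
    have h1 := congrFun hx m
    rw [← hF] at h1
    have h2 := congrFun (io_act U J D hU hD f) m
    rw [io_apply] at h2
    rw [h2]
    exact h1) n
  exact hrecov.2

/-- The overlapping space is not zero if `M` is not an isometry. -/
private theorem overlap_ne (hU : ∀ x, ‖U x‖ = ‖x‖) (hD : ∀ e, D e + adjoint J (J (D e)) = e)
    (h0 : Cz E) (hlt : ‖io U J D hU hD h0‖ < ‖h0‖) (R : Cz E →L[ℂ] Cz E)
    (hR3 : ∀ f : Cz E, R (R f) = f - io U J D hU hD (adjoint (io U J D hU hD) f)) :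
    ∃ g : Cz E, g ≠ 0 ∧ normOverlap (bc U J D) R g < ⊤ := by
  refine ⟨h0 - adjoint (io U J D hU hD) (io U J D hU hD h0), ?_, ?_⟩
  · intro hg0
    have h1 : (inner ℂ (h0 - adjoint (io U J D hU hD) (io U J D hU hD h0)) h0 : ℂ) = 0 := by
      rw [hg0, inner_zero_left]
    rw [inner_sub_left, adjoint_inner_left] at h1
    have h2 := congrArg Complex.re h1
    have h7 : (inner ℂ h0 h0 : ℂ).re = ‖h0‖ ^ 2 := by
      rw [inner_self_eq_norm_sq_to_K]; norm_cast
    have h8 : (inner ℂ (io U J D hU hD h0) (io U J D hU hD h0) : ℂ).re =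
        ‖io U J D hU hD h0‖ ^ 2 := by
      rw [inner_self_eq_norm_sq_to_K]; norm_cast
    rw [Complex.sub_re, h7, h8, Complex.zero_re] at h2
    have h3 : ‖io U J D hU hD h0‖ ^ 2 < ‖h0‖ ^ 2 :=
      pow_lt_pow_left₀ hlt (norm_nonneg _) (by norm_num)
    linarith
  · obtain ⟨g, hg⟩ : ∃ g : Cz E, g = h0 - adjoint (io U J D hU hD) (io U J D hU hD h0) :=
      ⟨_, rfl⟩
    rw [← hg]
    apply ENNReal.add_lt_top.2
    constructor
    · rw [normC_lp]
      exact ENNReal.ofReal_lt_top
    · refine lt_of_le_of_lt (iInf₂_le (R (io U J D hU hD h0)) ?_) ?_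
      · rw [hR3, ← io_act U J D hU hD g, hg, map_sub]
      · rw [normC_lp]
        exact ENNReal.ofReal_lt_top

private theorem cayley (hD : ∀ e, D e + adjoint J (J (D e)) = e) :
    IsCayley (phc U J) (bc U J D) := by
  intro n x
  have h := congrArg (fun P : E →L[ℂ] E => P x) (bc_rec U J D hD n)
  simp only [_root_.add_apply, _root_.sub_apply, _root_.sum_apply] at h
  have h2 : ((if n = 0 then (1 : E →L[ℂ] E) else 0) : E →L[ℂ] E) x = if n = 0 then x else 0 := by
    by_cases hn : n = 0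
    · rw [if_pos hn, if_pos hn]
      rfl
    · rw [if_neg hn, if_neg hn]
      rfl
  rw [h2] at h
  exact h

private theorem positive (hU : ∀ x, ‖U x‖ = ‖x‖) : PositiveRealPart (phc U J) := by
  intro z hz x
  obtain ⟨Φ, h1, h2⟩ := phc_pos U J hU z hz
  refine ⟨Φ x, ?_, h2 x⟩
  exact h1.mapL (ContinuousLinearMap.apply ℂ E x)

end Aux

private theorem rePart : IsSelfAdjointPart (phc UU JJ 0) (adjoint JJ ∘L JJ) := by
  have h0 : phc UU JJ 0 = adjoint JJ ∘L JJ := by
    rw [phc, if_pos rfl, pow_zero]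
    ext1 x
    have : ((2 : ℂ) • (adjoint JJ ∘L 1 ∘L JJ)) x = (2 : ℂ) • (adjoint JJ (JJ x)) := rfl
    rw [_root_.sub_apply, this, two_smul, ContinuousLinearMap.comp_apply]
    abel
  intro x y
  rw [h0]
  simp only [ContinuousLinearMap.comp_apply]
  rw [adjoint_inner_left, adjoint_inner_right]
  ring

private theorem singular_le (n : ℕ) :
    SingularLe (adjoint JJ ∘L JJ) n (100 / √((n : ℝ) + 1)) := by
  refine ⟨FF n, fun i : Fin n => (lp.single 2 (i : ℕ) (1 : ℂ) : L2 ℕ), fun x => ?_, fun x => ?_⟩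
  · have h1 : FF n x = ∑ i : Fin n, (((Pool.Agent.MPeb6598.lam i : ℝ) : ℂ) * x (i : ℕ)) •
        (lp.single 2 (i : ℕ) (1 : ℂ) : L2 ℕ) := by
      rw [FF, ContinuousLinearMap.comp_apply, FFin, _root_.sum_apply]
      rfl
    rw [h1]
    refine Submodule.sum_mem _ fun i _ => Submodule.smul_mem _ _ ?_
    exact Submodule.subset_span ⟨i, rfl⟩
  · have h1 := (adjoint JJ ∘L JJ - FF n).le_opNorm x
    refine (le_of_eq_of_le ?_ h1).trans (mul_le_mul_of_nonneg_right (AF_norm n) (norm_nonneg x))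
    rfl

private theorem is_matsaev : IsMatsaev (adjoint JJ ∘L JJ) := by
  refine ⟨AA_compact, fun n => 100 / √((n : ℝ) + 1), singular_le, ?_⟩
  have h := (Real.summable_one_div_nat_rpow (p := 3 / 2)).2 (by norm_num)
  have h2 := ((summable_nat_add_iff 1).2 h).mul_left 100
  refine h2.congr (fun n => ?_)
  have h3 : (((n + 1 : ℕ) : ℝ)) ^ (3 / 2 : ℝ) = √((n : ℝ) + 1) * ((n : ℝ) + 1) := by
    push_cast
    rw [Real.sqrt_eq_rpow]
    have : (3 / 2 : ℝ) = 1 / 2 + 1 := by norm_num
    rw [this, Real.rpow_add (by positivity), Real.rpow_one]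
  rw [h3, div_div, mul_one_div]

private theorem diagonal : IsSmallDiagonal (adjoint JJ ∘L JJ) := by
  refine ⟨HilbertBasis.ofRepr (LinearIsometryEquiv.refl ℂ _), Pool.Agent.MPeb6598.lam,
    fun n => ⟨?_, lam_nonneg n, lam_le n⟩⟩
  have he : (HilbertBasis.ofRepr (LinearIsometryEquiv.refl ℂ (L2 ℕ)) : ℕ → L2 ℕ) n =
      lp.single 2 n (1 : ℂ) := by
    rw [← HilbertBasis.repr_symm_single]
    rfl
  rw [he]
  apply lp.ext
  funext m
  rw [AA_apply, lp.coeFn_smul, Pi.smul_apply, lp.coeFn_single]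
  by_cases hm : m = n
  · subst hm
    simp
  · rw [Pi.single_eq_of_ne hm]
    simp

/-- There are a Hilbert space `E` with an orthonormal basis indexed by `ℕ` and `φ`,
`B = (1 - φ) / (1 + φ)` such that the self-adjoint part of `φ(0)` is diagonal in this basis with
entries in `[0, 100 / √(n + 1)]` (so it is of Matsaev class), `L(φ)` has no square summable element
except `0`, so the wave-limit is zero, and the overlapping space is not zero. -/
theorem result :
    ∃ (E : Type) (_ : NormedAddCommGroup E) (_ : InnerProductSpace ℂ E) (_ : CompleteSpace E)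
      (φ b : ℕ → E →L[ℂ] E) (A : E →L[ℂ] E) (M T R : Cz E → Cz E),
      PositiveRealPart φ ∧ IsCayley φ b ∧ IsSelfAdjointPart (φ 0) A ∧ IsMatsaev A ∧
      (∀ n : ℕ, SingularLe A n (100 / √((n : ℝ) + 1))) ∧ IsSmallDiagonal A ∧
      IsMultiplication b M ∧ IsAdjoint M T ∧ IsSqrtDefect M T R ∧
      (∀ f : Cz E, normLphi b R f < ⊤ → f = 0) ∧
      (∃ g : Cz E, g ≠ 0 ∧ normOverlap b R g < ⊤) ∧
      IsWaveLimit b T R 0 ∧
      ∀ W : (ℕ → E) → ℕ → E, IsWaveLimit b T R W →
        (∀ f : ℕ → E, normLphi b R f < ⊤ → W f = 0) ∧ ¬ IsOnto b R W := by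
  obtain ⟨R, hR1, hR2, hR3⟩ := exists_sqrt (io UU JJ DD UU_norm DD_spec)
    (io_adj_le UU JJ DD UU_norm DD_spec)
  have hlz := lphi_zero UU JJ DD UU_norm UU_adj DD_spec
    (fun F => permOp_recurrent tau tau_periodic F) R hR1 hR3
  obtain ⟨g, hg0, hg1⟩ := overlap_ne UU JJ DD UU_norm DD_spec hin io_lt R hR3
  have hW : ∀ W, IsWaveLimit (bc UU JJ DD) (adjoint (io UU JJ DD UU_norm DD_spec)) R W →
      ∀ f, normLphi (bc UU JJ DD) R f < ⊤ → W f = 0 := by
    intro W hW f hf
    refine hW.orthogonal f hf fun s hs => ?_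
    have h2 : (s : ℕ → L2 ℕ) = 0 := by
      rw [hlz s hs]
      rfl
    rw [h2, normLphi_zero, add_zero, add_zero]
  refine ⟨L2 ℕ, inferInstance, inferInstance, inferInstance, phc UU JJ, bc UU JJ DD,
    adjoint JJ ∘L JJ, io UU JJ DD UU_norm DD_spec, adjoint (io UU JJ DD UU_norm DD_spec), R,
    positive UU JJ UU_norm, cayley UU JJ DD DD_spec, rePart, is_matsaev, singular_le, diagonal,
    io_act UU JJ DD UU_norm DD_spec, fun f g => (adjoint_inner_right _ f g).symm,
    ⟨hR1, hR2, hR3⟩, hlz, ⟨g, hg0, hg1⟩, ?_, fun W hWl => ⟨hW W hWl, ?_⟩⟩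
  · refine ⟨fun _ _ _ _ => (add_zero _).symm, fun c _ _ => (smul_zero c).symm, fun f _ => ?_,
      fun f hf n => ?_, fun _ _ _ => rfl⟩
    · show normOverlap (bc UU JJ DD) R (0 : ℕ → L2 ℕ) ≤ _
      rw [normOverlap_zero]
      exact zero_le
    · rw [hlz f hf, map_zero]
      exact (add_zero _).symm
  · intro hon
    obtain ⟨f, hf, hfg⟩ := hon g hg1
    rw [hW W hWl f hf] at hfg
    apply hg0
    apply lp.ext
    rw [← hfg]
    rfl

end Pool.Agent.Results.MP_eb6598_an.WaveLimitZero
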